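import Pool.Agent.ZES.StmtsF

/-!
Squad ZES, row FSH: Fourier coefficients of translates, twists and linear combinations.
-/

set_option autoImplicit false

namespace Pool.Agent.ZES.H44

open MeasureTheory
open scoped BigOperators
open Pool.Agent.THS

private theorem contF {g : ℕ} {F : (Fin g → ℂ) → ℂ} (hF : Differentiable ℂ F) (k : Fin g → ℤ) :
    Continuous fun t : Fin g → ℝ =>
      Complex.exp (-(2 * Real.pi * Complex.I * ∑ i, (k i : ℂ) * ((t i : ℝ) : ℂ)))
        * F (fun i => ((t i : ℝ) : ℂ)) := by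
  apply Continuous.mul
  · fun_prop
  · exact hF.continuous.comp (by fun_prop)

private theorem intF {g : ℕ} {F : (Fin g → ℂ) → ℂ} (hF : Differentiable ℂ F) (k : Fin g → ℤ) :
    Integrable (fun t : Fin g → ℝ =>
      Complex.exp (-(2 * Real.pi * Complex.I * ∑ i, (k i : ℂ) * ((t i : ℝ) : ℂ)))
        * F (fun i => ((t i : ℝ) : ℂ))) (volume.restrict (Set.Icc (0 : Fin g → ℝ) 1)) :=
  ContinuousOn.integrableOn_compact isCompact_Icc (contF hF k).continuousOn

/-- the twisted function is again entire and periodic -/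
private theorem twist {g : ℕ} {F : (Fin g → ℂ) → ℂ} (hF : PE F) (k : Fin g → ℤ) :
    PE (fun x : Fin g → ℂ => Complex.exp (-(2 * Real.pi * Complex.I * ∑ i, (k i : ℂ) * x i))
      * F x) := by
  refine ⟨?_, ?_⟩
  · apply Differentiable.mul
    · fun_prop
    · exact hF.1
  · intro x p
    show Complex.exp (-(2 * Real.pi * Complex.I * ∑ i, (k i : ℂ) * (x i + (p i : ℂ))))
      * F (fun i => x i + (p i : ℂ)) = _
    rw [hF.2 x p]
    congr 1
    have h1 : -(2 * Real.pi * Complex.I * ∑ i, (k i : ℂ) * (x i + (p i : ℂ))) =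
        -(2 * Real.pi * Complex.I * ∑ i, (k i : ℂ) * x i) +
          ((-∑ i, k i * p i : ℤ) : ℂ) * (2 * Real.pi * Complex.I) := by
      have h2 : ∑ i, (k i : ℂ) * (x i + (p i : ℂ)) =
          ∑ i, (k i : ℂ) * x i + ∑ i, (k i : ℂ) * (p i : ℂ) := by
        rw [← Finset.sum_add_distrib]
        exact Finset.sum_congr rfl fun i _ => by ring
      rw [h2]
      push_cast
      ring
    rw [h1, Complex.exp_add, Complex.exp_int_mul_two_pi_mul_I, mul_one]

theorem fsh (h : PicStmt) : FshStmt := by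
  intro g F hF k
  refine ⟨?_, ?_, ?_⟩
  · intro w
    have h1 := h g _ (twist hF k) w
    have h2 : fc F k = ∫ t in Set.Icc (0 : Fin g → ℝ) 1,
        (fun x : Fin g → ℂ => Complex.exp (-(2 * Real.pi * Complex.I * ∑ i, (k i : ℂ) * x i))
          * F x) (fun i => ((t i : ℝ) : ℂ)) := rfl
    rw [h2, ← h1]
    unfold fc
    rw [← integral_const_mul]
    congr 1
    funext t
    show Complex.exp (-(2 * Real.pi * Complex.I * ∑ i, (k i : ℂ) * ((t i : ℝ) : ℂ)))
        * F ((fun i => ((t i : ℝ) : ℂ)) + w) =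
      Complex.exp (2 * Real.pi * Complex.I * ∑ i, (k i : ℂ) * w i) *
        (Complex.exp (-(2 * Real.pi * Complex.I * ∑ i, (k i : ℂ) * (((t i : ℝ) : ℂ) + w i)))
          * F (fun i => ((t i : ℝ) : ℂ) + w i))
    have h3 : ((fun i => ((t i : ℝ) : ℂ)) + w : Fin g → ℂ) =
        fun i => ((t i : ℝ) : ℂ) + w i := rfl
    rw [h3, ← mul_assoc, ← Complex.exp_add]
    congr 2
    have h4 : ∑ i, (k i : ℂ) * (((t i : ℝ) : ℂ) + w i) =
        ∑ i, (k i : ℂ) * ((t i : ℝ) : ℂ) + ∑ i, (k i : ℂ) * w i := by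
      rw [← Finset.sum_add_distrib]
      exact Finset.sum_congr rfl fun i _ => by ring
    rw [h4]
    ring
  · intro q
    unfold fc
    congr 1
    funext t
    show Complex.exp (-(2 * Real.pi * Complex.I * ∑ i, (k i : ℂ) * ((t i : ℝ) : ℂ)))
        * (Complex.exp (2 * Real.pi * Complex.I * ∑ i, (q i : ℂ) * ((t i : ℝ) : ℂ))
          * F (fun i => ((t i : ℝ) : ℂ))) =
      Complex.exp (-(2 * Real.pi * Complex.I * ∑ i, ((k i - q i : ℤ) : ℂ) * ((t i : ℝ) : ℂ)))
        * F (fun i => ((t i : ℝ) : ℂ))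
    rw [← mul_assoc, ← Complex.exp_add]
    congr 2
    have h4 : ∑ i, ((k i - q i : ℤ) : ℂ) * ((t i : ℝ) : ℂ) =
        ∑ i, (k i : ℂ) * ((t i : ℝ) : ℂ) - ∑ i, (q i : ℂ) * ((t i : ℝ) : ℂ) := by
      rw [← Finset.sum_sub_distrib]
      refine Finset.sum_congr rfl fun i _ => ?_
      push_cast
      ring
    rw [h4]
    ring
  · intro G hG c
    unfold fc
    rw [← integral_const_mul, ← integral_add (intF hF.1 k) ((intF hG.1 k).const_mul c)]
    congr 1
    funext t
    ring

end Pool.Agent.ZES.H44
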